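import Pool.Agent.H71.CO.Targets

/-!
Row FIX: linearly ordered structures with finite colour classes are rigid.
-/

set_option autoImplicit false

open Set

namespace Pool.Agent.H19.CO

open Pool.Agent.H71.CQ (Formula Holds Iso IsIso holds_iso)
open Pool.Agent.H71.CO

theorem tru_iso {C : Type} [MeasurableSpace C] {x : ℕ → ℕ → C} {g : ℕ ≃ ℕ} (hg : IsIso x x g)
    (ψ : Formula C) (a b : ℕ) : Tru x ψ (g a) (g b) ↔ Tru x ψ a b := by
  have h1 := holds_iso (x := fun v : Fin 2 → ℕ => x (v 0) (v 1))
    (x' := fun v : Fin 2 → ℕ => x (v 0) (v 1)) g (fun v => hg (v 0) (v 1)) ψ ![a, b]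
  have h2 : g ∘ ![a, b] = ![g a, g b] := by
    funext k
    fin_cases k <;> rfl
  rw [h2] at h1
  exact h1

theorem iterate_mono {V : Type} {R : V → V → Prop} (tra : ∀ a b c, R a b → R b c → R a c)
    {g : V → V} (hg : ∀ a b, R a b → R (g a) (g b)) {b : V} (hb : R b (g b)) :
    ∀ n m, n < m → R (g^[n] b) (g^[m] b) := by
  have h1 : ∀ n, R (g^[n] b) (g^[n + 1] b) := by
    intro n
    induction n with
    | zero => exact hb
    | succ n ih =>
      rw [Function.iterate_succ_apply', Function.iterate_succ_apply' g (n + 1)]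
      exact hg _ _ ih
  intro n m hnm
  induction m with
  | zero => exact absurd hnm (Nat.not_lt_zero n)
  | succ m ih =>
    rcases Nat.lt_succ_iff_lt_or_eq.1 hnm with h | h
    · exact tra _ _ _ (ih h) (h1 m)
    · rw [h]
      exact h1 m

theorem pf_FIX : T_FIX := by
  intro C _ P x hL hfin g hg
  by_contra hne
  have h1 : ∃ b, g b ≠ b := by
    by_contra h
    push Not at h
    exact hne (Equiv.ext h)
  obtain ⟨b, hb⟩ := h1
  have hmono : ∀ a b, x a b ∈ P → x (g a) (g b) ∈ P := by
    intro a b hab
    have h2 := hg a b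
    rw [h2]
    exact hab
  have hinj : Function.Injective fun n : ℕ => (g^[n] b) := by
    rcases hL.tot (g b) b hb with h | h
    · have h3 := iterate_mono (R := fun a b => x b a ∈ P)
        (fun a b c hab hbc => hL.tra _ _ _ hbc hab) (g := g) (fun a b hab => hmono _ _ hab) h
      intro n m hnm
      dsimp only at hnm
      rcases lt_trichotomy n m with hlt | heq | hgt
      · have h4 := h3 n m hlt
        rw [hnm] at h4
        exact absurd h4 (hL.irr _)
      · exact heq
      · have h4 := h3 m n hgt
        rw [hnm] at h4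
        exact absurd h4 (hL.irr _)
    · have h3 := iterate_mono (R := fun a b => x a b ∈ P)
        (fun a b c hab hbc => hL.tra _ _ _ hab hbc) (g := g) (fun a b hab => hmono _ _ hab) h
      intro n m hnm
      dsimp only at hnm
      rcases lt_trichotomy n m with hlt | heq | hgt
      · have h4 := h3 n m hlt
        rw [hnm] at h4
        exact absurd h4 (hL.irr _)
      · exact heq
      · have h4 := h3 m n hgt
        rw [hnm] at h4
        exact absurd h4 (hL.irr _)
  have hmem : ∀ n : ℕ, g^[n] b ∈ {c | ∀ ψ : Formula C, Tru x ψ c c ↔ Tru x ψ b b} := by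
    intro n
    induction n with
    | zero => exact fun ψ => Iff.rfl
    | succ n ih =>
      intro ψ
      rw [Function.iterate_succ_apply', tru_iso hg]
      exact ih ψ
  exact (Set.infinite_of_injective_forall_mem hinj hmem) (hfin b)

end Pool.Agent.H19.CO
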