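import Pool.Agent.H71.CO.Targets

/-!
Row FRL: a label which is open on both sides.
-/

set_option autoImplicit false

open Set

namespace Pool.Agent.H19.CO

open Pool.Agent.H71.CO

theorem encard_biUnion_le' {L : Type} (A : L → Set ℕ) (t : Finset L) :
    (⋃ l ∈ t, A l).encard ≤ ∑ l ∈ t, (A l).encard := by
  classical
  induction t using Finset.induction_on with
  | empty => simp
  | insert l t hl ih =>
    rw [Finset.set_biUnion_insert, Finset.sum_insert hl]
    exact (Set.encard_union_le _ _).trans (add_le_add_right ih _)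

theorem exists_max' {lt : ℕ → ℕ → Prop} (h : Lin lt) (T : Finset ℕ) :
    T.Nonempty → ∃ m ∈ T, ∀ t ∈ T, t = m ∨ lt t m := by
  classical
  induction T using Finset.induction_on with
  | empty => exact fun h => absurd h Finset.not_nonempty_empty
  | insert a T ha ih =>
    intro _
    rcases T.eq_empty_or_nonempty with h0 | h0
    · subst h0
      exact ⟨a, Finset.mem_insert_self _ _, fun t ht => Or.inl (by simpa using ht)⟩
    · obtain ⟨m, hm, hmax⟩ := ih h0
      have hne : a ≠ m := fun h1 => ha (h1 ▸ hm)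
      rcases h.tot a m hne with h1 | h1
      · refine ⟨m, Finset.mem_insert_of_mem hm, fun t ht => ?_⟩
        rcases Finset.mem_insert.1 ht with h2 | h2
        · exact Or.inr (h2 ▸ h1)
        · exact hmax t h2
      · refine ⟨a, Finset.mem_insert_self _ _, fun t ht => ?_⟩
        rcases Finset.mem_insert.1 ht with h2 | h2
        · exact Or.inl h2
        · rcases hmax t h2 with h3 | h3
          · exact Or.inr (h3 ▸ h1)
          · exact Or.inr (h.tra _ _ _ h3 h1)

theorem pf_FRL (hABV : T_ABV) : T_FRL := by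
  classical
  intro L s lt hSO a0 b0 hlt hP hQ hfin
  by_contra hno
  push Not at hno
  obtain ⟨hab, hba⟩ := hABV L s lt hSO a0 b0 hlt hP hQ
  -- the reverse labels
  have hM : {l | ∃ a b, lt a b ∧ a ∈ Cls s a0 ∧ b ∈ Cls s b0 ∧ s b a = l}.Finite := by
    have h1 : {l | ∃ a b, lt a b ∧ a ∈ Cls s a0 ∧ b ∈ Cls s b0 ∧ s b a = l} ⊆
        (fun l => if h : ∃ p : ℕ × ℕ, s p.1 p.2 = l then s h.choose.2 h.choose.1 else l) ''
          {l | ∃ a b, lt a b ∧ a ∈ Cls s a0 ∧ b ∈ Cls s b0 ∧ s a b = l} := by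
      rintro l ⟨a, b, h1, h2, h3, h4⟩
      refine ⟨s a b, ⟨a, b, h1, h2, h3, rfl⟩, ?_⟩
      have h5 : ∃ p : ℕ × ℕ, s p.1 p.2 = s a b := ⟨(a, b), rfl⟩
      dsimp only
      rw [dif_pos h5, ← h4]
      exact hSO.stb.sw _ _ _ _ h5.choose_spec
    exact (hfin.image _).subset h1
  set Mf : Set L := {l | (∃ a b, lt a b ∧ a ∈ Cls s a0 ∧ b ∈ Cls s b0 ∧ s b a = l) ∧
    {c | s b0 c = l}.Finite} with hMf
  have hMfin : Mf.Finite := hM.subset fun l hl => hl.1
  have hk : ∑ l ∈ hMfin.toFinset, {c | s b0 c = l}.encard ≠ ⊤ := by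
    refine WithTop.sum_ne_top.2 fun l hl => ?_
    exact (Set.encard_ne_top_iff).2 ((hMfin.mem_toFinset.1 hl).2)
  obtain ⟨k, hk'⟩ := ENat.ne_top_iff_exists.1 hk
  have hU : ∀ b ∈ Cls s b0, (⋃ l ∈ hMfin.toFinset, {c | s b c = l}).encard ≤ (k : ℕ∞) := by
    intro b hb
    refine (encard_biUnion_le' (fun l => {c | s b c = l}) hMfin.toFinset).trans (le_of_eq ?_)
    rw [hk']
    exact Finset.sum_congr rfl fun l _ => hSO.stb.cnt b b0 hb l
  obtain ⟨T, hT, hTc⟩ := (hba b0 rfl).exists_subset_card_eq (k + 1)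
  have hT0 : T.Nonempty := by
    rw [← Finset.card_pos, hTc]
    exact Nat.succ_pos k
  obtain ⟨m, hm, hmax⟩ := exists_max' hSO.lin T hT0
  have hmP : m ∈ Cls s a0 := (hT hm).2
  have hbad : (⋃ a ∈ T, {b | lt a b ∧ b ∈ Cls s b0 ∧ {c | s a c = s a b}.Finite}).Finite := by
    refine T.finite_toSet.biUnion fun a ha => ?_
    have h1 : {b | lt a b ∧ b ∈ Cls s b0 ∧ {c | s a c = s a b}.Finite} ⊆
        ⋃ l ∈ {l | (∃ a b, lt a b ∧ a ∈ Cls s a0 ∧ b ∈ Cls s b0 ∧ s a b = l) ∧
          {c | s a c = l}.Finite}, {c | s a c = l} := by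
      rintro b ⟨h2, h3, h4⟩
      exact Set.mem_biUnion ⟨⟨a, b, h2, (hT ha).2, h3, rfl⟩, h4⟩ rfl
    refine Set.Finite.subset ?_ h1
    exact (hfin.subset fun l hl => hl.1).biUnion fun l hl => hl.2
  obtain ⟨b, ⟨hmb, hbQ⟩, hb⟩ := ((hab m hmP).sdiff hbad).nonempty
  have hsub : (T : Set ℕ) ⊆ ⋃ l ∈ hMfin.toFinset, {c | s b c = l} := by
    intro a ha
    have haP : a ∈ Cls s a0 := (hT ha).2
    have hab' : lt a b := by
      rcases hmax a ha with h1 | h1
      · rw [h1]
        exact hmb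
      · exact hSO.lin.tra _ _ _ h1 hmb
    have hinf : {c | s a c = s a b}.Infinite := by
      intro hf
      exact hb (Set.mem_biUnion ha ⟨hab', hbQ, hf⟩)
    have hf : {c | s b c = s b a}.Finite := hno a b hab' haP hbQ hinf
    refine Set.mem_biUnion (x := s b a) ?_ rfl
    refine hMfin.mem_toFinset.2 ⟨⟨a, b, hab', haP, hbQ, rfl⟩, ?_⟩
    have h1 := hSO.stb.cnt b b0 hbQ (s b a)
    rw [← Set.encard_ne_top_iff, ← h1, Set.encard_ne_top_iff]
    exact hf
  have h2 := (Set.encard_le_encard hsub).trans (hU b hbQ)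
  rw [Set.encard_coe_eq_coe_finsetCard, hTc] at h2
  have h3 : k + 1 ≤ k := by exact_mod_cast h2
  omega

end Pool.Agent.H19.CO
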